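import Pool.Agent.N641.VB.Stm2

set_option autoImplicit false

/-!
# Project VB (helper641), task UNQ: uniqueness of the structure over the Boolean algebra (helper402)
-/

namespace Pool.Agent.N402.VB

open FirstOrder FirstOrder.Language
open Pool.Agent.N641.VB

/-- isomorphisms preserve formulas -/
theorem inv {A A' M : Type} (le : A → A → Prop) (le' : A' → A' → Prop) (mu : A → M) (mu' : A' → M)
    (e : A ≃ A') (h1 : ∀ a b, le a b ↔ le' (e a) (e b)) (h2 : ∀ a, mu' (e a) = mu a) {α : Type}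
    (ρ : (LM M).Formula α) (v : α → A) :
    @Formula.Realize (LM M) A (str le mu) _ ρ v ↔
      @Formula.Realize (LM M) A' (str le' mu') _ ρ (e ∘ v) := by
  let _ := str le mu
  let _ := str le' mu'
  let g : A ≃[LM M] A' :=
    { toEquiv := e
      map_fun' := fun f => Empty.elim f
      map_rel' := by
        intro n r v
        cases r with
        | le => exact (h1 (v 0) (v 1)).symm
        | val x =>
          show mu' (e (v 0)) = x ↔ mu (v 0) = x
          rw [h2] }
  exact (StrongHomClass.realize_formula g ρ).symm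

theorem all_iff {L : FirstOrder.Language.{0, 0}} {A : Type} (S : L.Structure A) {n k : ℕ}
    (θ ρ : L.Formula (Fin n ⊕ Fin k)) (p : Fin n → A) :
    @Formula.Realize L A S _ ((θ.iff ρ).iAlls (Fin k)) p ↔
      ∀ v : Fin k → A, (@Formula.Realize L A S _ θ (Sum.elim p v) ↔
        @Formula.Realize L A S _ ρ (Sum.elim p v)) := by
  let _ := S
  rw [Formula.realize_iAlls]
  exact forall_congr' fun v => Formula.realize_iff

theorem transfer (TRL : S_TRL) {L : FirstOrder.Language.{0, 0}} {M : Type} {n : ℕ}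
    {φ : L.Formula (Fin n ⊕ Fin 2)} {ψ : M → L.Formula (Fin n ⊕ Fin 1)}
    {S S' : L.Structure ℕ} {p p' : Fin n → ℕ} {bo bo' : BooleanAlgebra ℕ} {mu mu' : ℕ → M}
    (hD : Dec S p φ ψ bo mu) (hD' : Dec S' p' φ ψ bo' mu')
    (hth : ∀ χ : L.Formula (Fin n), @Formula.Realize L ℕ S _ χ p ↔ @Formula.Realize L ℕ S' _ χ p')
    (e : ℕ ≃ ℕ) (h1 : ∀ a b, bo.le a b ↔ bo'.le (e a) (e b)) (h2 : ∀ a, mu' (e a) = mu a)
    (h3 : ∀ j, e (p j) = p' j) {k : ℕ} (θ : L.Formula (Fin n ⊕ Fin k))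
    (ρ : (LM M).Formula (Fin n ⊕ Fin k))
    (h : ∀ v, @Formula.Realize L ℕ S _ θ (Sum.elim p v) ↔
      @Formula.Realize (LM M) ℕ (str bo.le mu) _ ρ (Sum.elim p v)) (v : Fin k → ℕ) :
    @Formula.Realize L ℕ S _ θ (Sum.elim p v) ↔
      @Formula.Realize L ℕ S' _ θ (Sum.elim p' (e ∘ v)) := by
  obtain ⟨ρ', hρ⟩ := TRL L M n φ ψ k ρ
  have e1 := (all_iff S θ ρ' p).2 fun v => (h v).trans (hρ S p bo mu hD v).symm
  have e2 := (all_iff S' θ ρ' p').1 ((hth _).1 e1) (e ∘ v)
  have e3 := hρ S' p' bo' mu' hD' (e ∘ v)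
  have e4 := inv bo.le bo'.le mu mu' e h1 h2 ρ (Sum.elim p v)
  have e5 : e ∘ Sum.elim p v = Sum.elim p' (e ∘ v) := by
    funext x
    rcases x with x | x
    · exact h3 x
    · rfl
  rw [e5] at e4
  rw [e2, e3, ← e4, h v]

theorem real_rel {L : FirstOrder.Language.{0, 0}} (S : L.Structure ℕ) {n l : ℕ} (R : L.Relations l)
    (p : Fin n → ℕ) (v : Fin l → ℕ) :
    @Formula.Realize L ℕ S _ (R.formula fun i => Term.var (Sum.inr i : Fin n ⊕ Fin l)) (Sum.elim p v) ↔
      @Structure.RelMap L ℕ S l R v := by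
  let _ := S
  rw [Formula.realize_rel]
  rfl

theorem real_fun {L : FirstOrder.Language.{0, 0}} (S : L.Structure ℕ) {n l : ℕ} (F : L.Functions l)
    (p : Fin n → ℕ) (v : Fin (l + 1) → ℕ) :
    @Formula.Realize L ℕ S _ ((Term.func F fun i => Term.var (Sum.inr i.castSucc)).equal
      (Term.var (Sum.inr (Fin.last l) : Fin n ⊕ Fin (l + 1)))) (Sum.elim p v) ↔
      @Structure.funMap L ℕ S l F (fun i => v i.castSucc) = v (Fin.last l) := by
  let _ := S
  rw [Formula.realize_equal]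
  rfl

/-- UNQ -/
theorem UNQ (TRL : S_TRL) : S_UNQ := by
  intro L M n φ ψ S S' p p' bo bo' mu mu' hD hD' hE hth e h1 h2 h3
  have hrel : ∀ (l : ℕ) (R : L.Relations l) (v : Fin l → ℕ),
      @Structure.RelMap L ℕ S l R v ↔ @Structure.RelMap L ℕ S' l R (e ∘ v) := by
    intro l R v
    obtain ⟨ρ, hρ⟩ := hE.rel l R
    have h4 := transfer TRL hD hD' hth e h1 h2 h3
      (R.formula fun i => Term.var (Sum.inr i : Fin n ⊕ Fin l)) ρ
      (fun v => (real_rel S R p v).trans (hρ v).symm) v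
    rw [real_rel, real_rel] at h4
    exact h4
  have hfun : ∀ (l : ℕ) (F : L.Functions l) (v : Fin l → ℕ),
      e (@Structure.funMap L ℕ S l F v) = @Structure.funMap L ℕ S' l F (e ∘ v) := by
    intro l F v
    obtain ⟨ρ, hρ⟩ := hE.fun_ l F
    have h4 := transfer TRL hD hD' hth e h1 h2 h3
      ((Term.func F fun i => Term.var (Sum.inr i.castSucc)).equal
        (Term.var (Sum.inr (Fin.last l) : Fin n ⊕ Fin (l + 1)))) ρ
      (fun v => (real_fun S F p v).trans (hρ v).symm)
      (Fin.snoc v (@Structure.funMap L ℕ S l F v))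
    rw [real_fun, real_fun] at h4
    have h5 := h4.1 (by simp)
    simp only [Function.comp_apply, Fin.snoc_castSucc, Fin.snoc_last] at h5
    exact h5.symm
  refine ⟨?_⟩
  let _ := S
  exact @FirstOrder.Language.Equiv.mk L ℕ ℕ S S' e (fun {l} F v => hfun l F v)
    (fun {l} R v => (hrel l R v).symm)

end Pool.Agent.N402.VB
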